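import Pool.Agent.H91.VF.Defs

/-!
# A toy inhabitant of `VerraData`

Corner test of the fields of `H91.VF.VerraData`: one `Verra fourfold` (a point), whose `H⁴` is
`⟨-1⟩⁴` with `T_X = ⟨-2⟩²`, one twisted K3 surface with Mukai lattice `U⁴`.  Everything is
proved except the field `nikulin` (Nikulin's theorem 1.14.4), which is a hypothesis.
-/

namespace H52.VF

open scoped TensorProduct
open H91.VF

/-- coordinates on `A ⊗ ℤⁿ` -/
noncomputable def Phi (A : Type) [CommRing A] (n : ℕ) :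
    A ⊗[ℤ] (Fin n → ℤ) ≃ₗ[A] (Fin n → A) :=
  TensorProduct.piScalarRight ℤ A A (Fin n)

theorem Phi_tmul (A : Type) [CommRing A] (n : ℕ) (a : A) (v : Fin n → ℤ) (i : Fin n) :
    Phi A n (a ⊗ₜ[ℤ] v) i = (v i : A) * a := by
  simp [Phi]

theorem bc_apply (A : Type) [CommRing A] (n : ℕ) (M : Matrix (Fin n) (Fin n) ℤ)
    (x y : A ⊗[ℤ] (Fin n → ℤ)) :
    (Matrix.toBilin' M).baseChange A x y
      = ∑ i, ∑ j, (M i j : A) * Phi A n x i * Phi A n y j := by
  induction x using TensorProduct.induction_on with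
  | zero => simp
  | add x x' hx hx' =>
    rw [map_add, LinearMap.add_apply, hx, hx', ← Finset.sum_add_distrib]
    refine Finset.sum_congr rfl fun i _ => ?_
    rw [← Finset.sum_add_distrib]
    refine Finset.sum_congr rfl fun j _ => ?_
    rw [map_add, Pi.add_apply]; ring
  | tmul a v =>
    induction y using TensorProduct.induction_on with
    | zero => simp
    | add y y' hy hy' =>
      rw [map_add, hy, hy', ← Finset.sum_add_distrib]
      refine Finset.sum_congr rfl fun i _ => ?_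
      rw [← Finset.sum_add_distrib]
      refine Finset.sum_congr rfl fun j _ => ?_
      rw [map_add, Pi.add_apply]; ring
    | tmul b w =>
      rw [LinearMap.BilinForm.baseChange_tmul]
      rw [Matrix.toBilin'_apply]
      simp only [Phi_tmul]
      rw [Finset.sum_smul]
      refine Finset.sum_congr rfl fun i _ => ?_
      rw [Finset.sum_smul]
      refine Finset.sum_congr rfl fun j _ => ?_
      simp only [zsmul_eq_mul, Int.cast_mul]
      ring

theorem Phi_conj (n : ℕ) (x : ℂ ⊗[ℤ] (Fin n → ℤ)) (i : Fin n) :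
    Phi ℂ n (conj (Fin n → ℤ) x) i = (starRingEnd ℂ) (Phi ℂ n x i) := by
  induction x using TensorProduct.induction_on with
  | zero => simp
  | add x y hx hy => simp only [map_add, Pi.add_apply, hx, hy]
  | tmul a v =>
    have : conj (Fin n → ℤ) (a ⊗ₜ[ℤ] v) = (starRingEnd ℂ a) ⊗ₜ[ℤ] v := rfl
    rw [this, Phi_tmul, Phi_tmul, map_mul]
    simp

/-! ## The cohomology -/

/-- The Hodge pieces, in coordinates -/
def pieceC (p : ℤ) : Submodule ℂ (Fin 4 → ℂ) where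
  carrier := {z | (p = 3 ∧ z 1 = z 0 ∧ z 3 = z 2 ∧ z 2 = Complex.I * z 0) ∨
    (p = 1 ∧ z 1 = z 0 ∧ z 3 = z 2 ∧ z 2 = -Complex.I * z 0) ∨
    (p = 2 ∧ z 1 = - z 0 ∧ z 3 = - z 2) ∨ z = 0}
  add_mem' := by
    rintro a b ha hb
    simp only [Set.mem_ofPred_eq] at *
    rcases ha with ⟨h, h1, h2, h3⟩ | ⟨h, h1, h2, h3⟩ | ⟨h, h1, h2⟩ | h
    · rcases hb with ⟨k, k1, k2, k3⟩ | ⟨k, k1, k2, k3⟩ | ⟨k, k1, k2⟩ | k
      · refine Or.inl ⟨h, ?_, ?_, ?_⟩ <;> simp only [Pi.add_apply, h1, h2, h3, k1, k2, k3] <;> ring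
      · omega
      · omega
      · subst k; refine Or.inl ⟨h, ?_, ?_, ?_⟩ <;> simp [h1, h2, h3]
    · rcases hb with ⟨k, k1, k2, k3⟩ | ⟨k, k1, k2, k3⟩ | ⟨k, k1, k2⟩ | k
      · omega
      · refine Or.inr (Or.inl ⟨h, ?_, ?_, ?_⟩) <;>
          simp only [Pi.add_apply, h1, h2, h3, k1, k2, k3] <;> ring
      · omega
      · subst k; refine Or.inr (Or.inl ⟨h, ?_, ?_, ?_⟩) <;> simp [h1, h2, h3]
    · rcases hb with ⟨k, k1, k2, k3⟩ | ⟨k, k1, k2, k3⟩ | ⟨k, k1, k2⟩ | k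
      · omega
      · omega
      · refine Or.inr (Or.inr (Or.inl ⟨h, ?_, ?_⟩)) <;>
          simp only [Pi.add_apply, h1, h2, k1, k2] <;> ring
      · subst k; refine Or.inr (Or.inr (Or.inl ⟨h, ?_, ?_⟩)) <;> simp [h1, h2]
    · subst h; simpa using hb
  zero_mem' := by simp
  smul_mem' := by
    rintro c z hz
    simp only [Set.mem_ofPred_eq] at *
    rcases hz with ⟨h, h1, h2, h3⟩ | ⟨h, h1, h2, h3⟩ | ⟨h, h1, h2⟩ | h
    · refine Or.inl ⟨h, ?_, ?_, ?_⟩ <;> simp only [Pi.smul_apply, smul_eq_mul, h1, h2, h3]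
      ring
    · refine Or.inr (Or.inl ⟨h, ?_, ?_, ?_⟩) <;>
        simp only [Pi.smul_apply, smul_eq_mul, h1, h2, h3]
      ring
    · refine Or.inr (Or.inr (Or.inl ⟨h, ?_, ?_⟩)) <;>
        simp only [Pi.smul_apply, smul_eq_mul, h1, h2] <;> ring
    · subst h; simp

/-- The Hodge pieces -/
noncomputable def piece (p : ℤ) : Submodule ℂ (ℂ ⊗[ℤ] (Fin 4 → ℤ)) :=
  (pieceC p).comap (Phi ℂ 4).toLinearMap

theorem mem_piece (p : ℤ) (x : ℂ ⊗[ℤ] (Fin 4 → ℤ)) :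
    x ∈ piece p ↔ (p = 3 ∧ Phi ℂ 4 x 1 = Phi ℂ 4 x 0 ∧ Phi ℂ 4 x 3 = Phi ℂ 4 x 2 ∧
        Phi ℂ 4 x 2 = Complex.I * Phi ℂ 4 x 0) ∨
    (p = 1 ∧ Phi ℂ 4 x 1 = Phi ℂ 4 x 0 ∧ Phi ℂ 4 x 3 = Phi ℂ 4 x 2 ∧
        Phi ℂ 4 x 2 = -Complex.I * Phi ℂ 4 x 0) ∨
    (p = 2 ∧ Phi ℂ 4 x 1 = - Phi ℂ 4 x 0 ∧ Phi ℂ 4 x 3 = - Phi ℂ 4 x 2) ∨ x = 0 := by
  have : (Phi ℂ 4 x = 0) ↔ x = 0 := (Phi ℂ 4).map_eq_zero_iff
  rw [← this]
  rfl

theorem ext4 {z w : Fin 4 → ℂ} (h0 : z 0 = w 0) (h1 : z 1 = w 1) (h2 : z 2 = w 2)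
    (h3 : z 3 = w 3) : z = w := by
  funext i; fin_cases i <;> assumption

/-- coefficient of the `(3,1)` part -/
noncomputable def c3 (z : Fin 4 → ℂ) : ℂ := ((z 0 + z 1) - Complex.I * (z 2 + z 3)) / 4

/-- coefficient of the `(1,3)` part -/
noncomputable def c1 (z : Fin 4 → ℂ) : ℂ := ((z 0 + z 1) + Complex.I * (z 2 + z 3)) / 4

/-- The three projections in coordinates -/
noncomputable def projC (p : ℤ) : (Fin 4 → ℂ) →ₗ[ℂ] (Fin 4 → ℂ) :=
  if p = 3 then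
    { toFun := fun z => ![c3 z, c3 z, c3 z * Complex.I, c3 z * Complex.I]
      map_add' := by
        intro z w
        refine ext4 ?_ ?_ ?_ ?_ <;> simp [c3] <;> ring
      map_smul' := by
        intro c z
        refine ext4 ?_ ?_ ?_ ?_ <;> simp [c3] <;> ring }
  else if p = 1 then
    { toFun := fun z => ![c1 z, c1 z, -(c1 z * Complex.I), -(c1 z * Complex.I)]
      map_add' := by
        intro z w
        refine ext4 ?_ ?_ ?_ ?_ <;> simp [c1] <;> ring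
      map_smul' := by
        intro c z
        refine ext4 ?_ ?_ ?_ ?_ <;> simp [c1] <;> ring }
  else if p = 2 then
    { toFun := fun z => ![(z 0 - z 1) / 2, (z 1 - z 0) / 2, (z 2 - z 3) / 2, (z 3 - z 2) / 2]
      map_add' := by
        intro z w
        refine ext4 ?_ ?_ ?_ ?_ <;> simp <;> ring
      map_smul' := by
        intro c z
        refine ext4 ?_ ?_ ?_ ?_ <;> simp <;> ring }
  else 0

theorem projC_three (z : Fin 4 → ℂ) :
    projC 3 z = ![c3 z, c3 z, c3 z * Complex.I, c3 z * Complex.I] := by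
  simp [projC]

theorem projC_one (z : Fin 4 → ℂ) :
    projC 1 z = ![c1 z, c1 z, -(c1 z * Complex.I), -(c1 z * Complex.I)] := by
  simp [projC]

theorem projC_two (z : Fin 4 → ℂ) : projC 2 z =
    ![(z 0 - z 1) / 2, (z 1 - z 0) / 2, (z 2 - z 3) / 2, (z 3 - z 2) / 2] := by
  simp [projC]

theorem I2 : Complex.I * Complex.I = -1 := Complex.I_mul_I

theorem projC_self (p : ℤ) (z : Fin 4 → ℂ) (h : z ∈ pieceC p) : projC p z = z := by
  rcases h with ⟨rfl, h1, h2, h3⟩ | ⟨rfl, h1, h2, h3⟩ | ⟨rfl, h1, h2⟩ | rfl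
  · have hc : c3 z = z 0 := by
      unfold c3; rw [h1, h2, h3]; linear_combination (-(z 0) / 2) * I2
    rw [projC_three, hc]
    refine ext4 rfl h1.symm ?_ ?_
    · change z 0 * Complex.I = z 2
      rw [h3, mul_comm]
    · change z 0 * Complex.I = z 3
      rw [h2, h3, mul_comm]
  · have hc : c1 z = z 0 := by
      unfold c1; rw [h1, h2, h3]; linear_combination (-(z 0) / 2) * I2
    rw [projC_one, hc]
    refine ext4 rfl h1.symm ?_ ?_
    · change -(z 0 * Complex.I) = z 2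
      rw [h3]; ring
    · change -(z 0 * Complex.I) = z 3
      rw [h2, h3]; ring
  · rw [projC_two]
    refine ext4 ?_ ?_ ?_ ?_ <;> simp [h1, h2] <;> ring
  · simp

theorem projC_other (p r : ℤ) (hpr : p ≠ r) (z : Fin 4 → ℂ) (h : z ∈ pieceC r) :
    projC p z = 0 := by
  by_cases p3 : p = 3
  · subst p3
    have hz : c3 z = 0 → projC 3 z = 0 := by
      intro hc; rw [projC_three, hc]; refine ext4 ?_ ?_ ?_ ?_ <;> simp
    rcases h with ⟨rfl, h1, h2, h3⟩ | ⟨rfl, h1, h2, h3⟩ | ⟨rfl, h1, h2⟩ | rfl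
    · exact absurd rfl hpr
    · apply hz; unfold c3; rw [h1, h2, h3]; linear_combination (z 0 / 2) * I2
    · apply hz; unfold c3; rw [h1, h2]; ring
    · simp
  by_cases p1 : p = 1
  · subst p1
    have hz : c1 z = 0 → projC 1 z = 0 := by
      intro hc; rw [projC_one, hc]; refine ext4 ?_ ?_ ?_ ?_ <;> simp
    rcases h with ⟨rfl, h1, h2, h3⟩ | ⟨rfl, h1, h2, h3⟩ | ⟨rfl, h1, h2⟩ | rfl
    · apply hz; unfold c1; rw [h1, h2, h3]; linear_combination (z 0 / 2) * I2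
    · exact absurd rfl hpr
    · apply hz; unfold c1; rw [h1, h2]; ring
    · simp
  by_cases p2 : p = 2
  · subst p2
    rcases h with ⟨rfl, h1, h2, h3⟩ | ⟨rfl, h1, h2, h3⟩ | ⟨rfl, h1, h2⟩ | rfl
    · rw [projC_two]; refine ext4 ?_ ?_ ?_ ?_ <;> simp [h1, h2]
    · rw [projC_two]; refine ext4 ?_ ?_ ?_ ?_ <;> simp [h1, h2]
    · exact absurd rfl hpr
    · simp
  · simp [projC, p3, p1, p2]

theorem projC_mem (p : ℤ) (z : Fin 4 → ℂ) : projC p z ∈ pieceC p := by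
  by_cases p3 : p = 3
  · subst p3
    rw [projC_three]
    refine Or.inl ⟨rfl, rfl, rfl, ?_⟩
    change c3 z * Complex.I = Complex.I * c3 z
    ring
  by_cases p1 : p = 1
  · subst p1
    rw [projC_one]
    refine Or.inr (Or.inl ⟨rfl, rfl, rfl, ?_⟩)
    change -(c1 z * Complex.I) = -Complex.I * c1 z
    ring
  by_cases p2 : p = 2
  · subst p2
    rw [projC_two]
    refine Or.inr (Or.inr (Or.inl ⟨rfl, ?_, ?_⟩))
    · change (z 1 - z 0) / 2 = -((z 0 - z 1) / 2)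
      ring
    · change (z 3 - z 2) / 2 = -((z 2 - z 3) / 2)
      ring
  · refine Or.inr (Or.inr (Or.inr ?_))
    simp [projC, p3, p1, p2]

theorem projC_sum (z : Fin 4 → ℂ) : projC 3 z + projC 1 z + projC 2 z = z := by
  rw [projC_three, projC_one, projC_two]
  refine ext4 ?_ ?_ ?_ ?_
  · change c3 z + c1 z + (z 0 - z 1) / 2 = z 0
    unfold c3 c1; ring
  · change c3 z + c1 z + (z 1 - z 0) / 2 = z 1
    unfold c3 c1; ring
  · change c3 z * Complex.I + -(c1 z * Complex.I) + (z 2 - z 3) / 2 = z 2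
    unfold c3 c1; linear_combination (-(z 2 + z 3) / 2) * I2
  · change c3 z * Complex.I + -(c1 z * Complex.I) + (z 3 - z 2) / 2 = z 3
    unfold c3 c1; linear_combination (-(z 2 + z 3) / 2) * I2

/-- The projection on `ℂ ⊗ V` -/
noncomputable def proj (p : ℤ) : (ℂ ⊗[ℤ] (Fin 4 → ℤ)) →ₗ[ℂ] (ℂ ⊗[ℤ] (Fin 4 → ℤ)) :=
  (Phi ℂ 4).symm.toLinearMap ∘ₗ projC p ∘ₗ (Phi ℂ 4).toLinearMap

theorem proj_self (p : ℤ) (x : ℂ ⊗[ℤ] (Fin 4 → ℤ)) (h : x ∈ piece p) : proj p x = x := by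
  have h' : Phi ℂ 4 x ∈ pieceC p := h
  simp only [proj, LinearMap.comp_apply, LinearEquiv.coe_coe]
  rw [projC_self p _ h', LinearEquiv.symm_apply_apply]

theorem proj_other (p r : ℤ) (hpr : p ≠ r) (x : ℂ ⊗[ℤ] (Fin 4 → ℤ)) (h : x ∈ piece r) :
    proj p x = 0 := by
  have h' : Phi ℂ 4 x ∈ pieceC r := h
  simp only [proj, LinearMap.comp_apply, LinearEquiv.coe_coe]
  rw [projC_other p r hpr _ h', map_zero]

theorem proj_mem (p : ℤ) (x : ℂ ⊗[ℤ] (Fin 4 → ℤ)) : proj p x ∈ piece p := by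
  simp only [proj, LinearMap.comp_apply, LinearEquiv.coe_coe, piece, Submodule.mem_comap,
    LinearEquiv.apply_symm_apply]
  exact projC_mem p _

theorem proj_sum (x : ℂ ⊗[ℤ] (Fin 4 → ℤ)) : proj 3 x + proj 1 x + proj 2 x = x := by
  apply (Phi ℂ 4).injective
  simp only [proj, LinearMap.comp_apply, LinearEquiv.coe_coe, map_add,
    LinearEquiv.apply_symm_apply]
  exact projC_sum _

theorem internal : DirectSum.IsInternal piece := by
  apply DirectSum.isInternal_submodule_of_iSupIndep_of_iSup_eq_top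
  · intro p
    rw [Submodule.disjoint_def]
    intro x hx hx'
    have hle : (⨆ j, ⨆ (_ : j ≠ p), piece j) ≤ LinearMap.ker (proj p) := by
      refine iSup_le fun j => iSup_le fun hj => ?_
      intro y hy
      exact proj_other p j (Ne.symm hj) y hy
    have h0 : proj p x = 0 := hle hx'
    rw [← proj_self p x hx, h0]
  · rw [eq_top_iff]
    intro x _
    rw [← proj_sum x]
    refine Submodule.add_mem _ (Submodule.add_mem _ ?_ ?_) ?_
    · exact Submodule.mem_iSup_of_mem 3 (proj_mem 3 x)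
    · exact Submodule.mem_iSup_of_mem 1 (proj_mem 1 x)
    · exact Submodule.mem_iSup_of_mem 2 (proj_mem 2 x)

theorem conj_piece (p : ℤ) (x : ℂ ⊗[ℤ] (Fin 4 → ℤ)) (h : x ∈ piece p) :
    conj (Fin 4 → ℤ) x ∈ piece (4 - p) := by
  rw [mem_piece] at h ⊢
  simp only [Phi_conj]
  rcases h with ⟨rfl, h1, h2, h3⟩ | ⟨rfl, h1, h2, h3⟩ | ⟨rfl, h1, h2⟩ | rfl
  · refine Or.inr (Or.inl ⟨by norm_num, ?_, ?_, ?_⟩)
    · rw [h1]
    · rw [h2]
    · rw [h3, map_mul, Complex.conj_I]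
  · refine Or.inl ⟨by norm_num, ?_, ?_, ?_⟩
    · rw [h1]
    · rw [h2]
    · rw [h3, map_mul, map_neg, Complex.conj_I, neg_neg]
  · refine Or.inr (Or.inr (Or.inl ⟨by norm_num, ?_, ?_⟩))
    · rw [h1, map_neg]
    · rw [h2, map_neg]
  · simp

/-- The Hodge structure -/
noncomputable def hodge : Hodge4 (Fin 4 → ℤ) where
  H := piece
  internal := internal
  conj_mem := conj_piece

/-- The form `-∑ xᵢ yᵢ` -/
noncomputable def qV : LinearMap.BilinForm ℤ (Fin 4 → ℤ) := Matrix.toBilin' (-1)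

theorem qV_apply (x y : Fin 4 → ℤ) :
    qV x y = -(x 0 * y 0 + x 1 * y 1 + x 2 * y 2 + x 3 * y 3) := by
  simp [qV, Matrix.toBilin'_apply, Fin.sum_univ_four, Matrix.one_apply]

theorem qVC (x y : ℂ ⊗[ℤ] (Fin 4 → ℤ)) :
    qV.baseChange ℂ x y = -(Phi ℂ 4 x 0 * Phi ℂ 4 y 0 + Phi ℂ 4 x 1 * Phi ℂ 4 y 1 +
      Phi ℂ 4 x 2 * Phi ℂ 4 y 2 + Phi ℂ 4 x 3 * Phi ℂ 4 y 3) := by
  rw [qV, bc_apply]
  simp [Fin.sum_univ_four, Matrix.one_apply]

/-- The classes `a₁, a₂, a₃` -/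
def aV : Fin 3 → (Fin 4 → ℤ) := ![![1, -1, 0, 0], ![0, 0, 1, -1], 0]

/-- The lattice `⟨-1⟩⁴` -/
noncomputable def latV : H91.VF.Lat where
  V := Fin 4 → ℤ
  q := qV
  symm := by intro x y; rw [qV_apply, qV_apply]; ring

theorem unimodV : latV.Unimod := by
  refine ⟨?_, ?_⟩
  · intro x hx
    have hx' : ∀ y : Fin 4 → ℤ, qV x y = 0 := hx
    have h0 := hx' ![1, 0, 0, 0]
    have h1 := hx' ![0, 1, 0, 0]
    have h2 := hx' ![0, 0, 1, 0]
    have h3 := hx' ![0, 0, 0, 1]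
    rw [qV_apply] at h0 h1 h2 h3
    simp at h0 h1 h2 h3
    change x = (0 : Fin 4 → ℤ)
    funext i; fin_cases i <;> simp [h0, h1, h2, h3]
  · intro l
    let l' : (Fin 4 → ℤ) →ₗ[ℤ] ℤ := l
    refine ⟨(fun i => - l' (Pi.single i 1) : Fin 4 → ℤ), ?_⟩
    intro w
    let w' : Fin 4 → ℤ := w
    change qV (fun i => - l' (Pi.single i 1)) w' = l' w'
    rw [qV_apply]
    have hw : w' = ∑ i, w' i • (Pi.single i 1 : Fin 4 → ℤ) := by
      funext j
      simp [Finset.sum_apply, Pi.single_apply]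
    conv_rhs => rw [hw]
    rw [map_sum]
    simp only [map_smul, smul_eq_mul, Fin.sum_univ_four]
    ring

theorem one_piece : Module.finrank ℂ (piece 3) = 1 := by
  have h : piece 3 = Submodule.span ℂ {(Phi ℂ 4).symm ![1, 1, Complex.I, Complex.I]} := by
    ext x
    rw [Submodule.mem_span_singleton, mem_piece]
    constructor
    · rintro (⟨-, h1, h2, h3⟩ | ⟨h, -⟩ | ⟨h, -⟩ | rfl)
      · refine ⟨Phi ℂ 4 x 0, ?_⟩
        apply (Phi ℂ 4).injective
        rw [map_smul, LinearEquiv.apply_symm_apply]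
        refine ext4 ?_ ?_ ?_ ?_
        · simp
        · simp [h1]
        · simp [h3, mul_comm]
        · simp [h2, h3, mul_comm]
      · norm_num at h
      · norm_num at h
      · exact ⟨0, by simp⟩
    · rintro ⟨c, rfl⟩
      refine Or.inl ⟨rfl, ?_, ?_, ?_⟩ <;>
        rw [map_smul, LinearEquiv.apply_symm_apply] <;> simp
      ring
  rw [h]
  apply finrank_span_singleton
  intro h0
  have h1 : (![1, 1, Complex.I, Complex.I] : Fin 4 → ℂ) = 0 := by
    have := congrArg (Phi ℂ 4) h0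
    rwa [LinearEquiv.apply_symm_apply, map_zero] at this
  have h2 := congrFun h1 0
  simp at h2

theorem eq_zero_of (x : ℂ ⊗[ℤ] (Fin 4 → ℤ)) (h0 : Phi ℂ 4 x 0 = 0) (h1 : Phi ℂ 4 x 1 = 0)
    (h2 : Phi ℂ 4 x 2 = 0) (h3 : Phi ℂ 4 x 3 = 0) : x = 0 := by
  apply (Phi ℂ 4).injective
  rw [map_zero]
  exact ext4 h0 h1 h2 h3

theorem nsq (z : ℂ) : z * (starRingEnd ℂ) z = ((Complex.normSq z : ℝ) : ℂ) := by
  rw [Complex.mul_conj]

theorem aV_zero : aV 0 = ![1, -1, 0, 0] := rfl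
theorem aV_one : aV 1 = ![0, 0, 1, -1] := rfl

/-- The cohomology of the toy fourfold -/
noncomputable def cohV : Coh where
  toLat := latV
  hodge := hodge
  unimod := unimodV
  level := by
    intro p h1 h2 h3
    change piece p = ⊥
    rw [eq_bot_iff]
    intro x hx
    rw [mem_piece] at hx
    rcases hx with ⟨h, -⟩ | ⟨h, -⟩ | ⟨h, -⟩ | h
    · exact absurd h h3
    · exact absurd h h1
    · exact absurd h h2
    · exact h
  one := one_piece
  orth := by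
    intro p r x y hx hy hpr
    change qV.baseChange ℂ x y = 0
    rw [qVC]
    have hx' := (mem_piece p x).mp hx
    have hy' := (mem_piece r y).mp hy
    rcases hx' with ⟨rfl, a1, a2, a3⟩ | ⟨rfl, a1, a2, a3⟩ | ⟨rfl, a1, a2⟩ | rfl
    · rcases hy' with ⟨rfl, b1, b2, b3⟩ | ⟨rfl, b1, b2, b3⟩ | ⟨rfl, b1, b2⟩ | rfl
      · rw [a1, a2, a3, b1, b2, b3]
        linear_combination (-2 * Phi ℂ 4 x 0 * Phi ℂ 4 y 0) * I2
      · exact absurd (by norm_num) hpr
      · rw [a1, a2, a3, b1, b2]; ring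
      · simp
    · rcases hy' with ⟨rfl, b1, b2, b3⟩ | ⟨rfl, b1, b2, b3⟩ | ⟨rfl, b1, b2⟩ | rfl
      · exact absurd (by norm_num) hpr
      · rw [a1, a2, a3, b1, b2, b3]
        linear_combination (-2 * Phi ℂ 4 x 0 * Phi ℂ 4 y 0) * I2
      · rw [a1, a2, a3, b1, b2]; ring
      · simp
    · rcases hy' with ⟨rfl, b1, b2, b3⟩ | ⟨rfl, b1, b2, b3⟩ | ⟨rfl, b1, b2⟩ | rfl
      · rw [a1, a2, b1, b2, b3]; ring
      · rw [a1, a2, b1, b2, b3]; ring
      · exact absurd (by norm_num) hpr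
      · simp
    · simp
  neg := by
    intro x hx hx0
    have hx' := (mem_piece 3 x).mp hx
    rcases hx' with ⟨-, a1, a2, a3⟩ | ⟨h, -⟩ | ⟨h, -⟩ | h
    · refine ⟨4 * Complex.normSq (Phi ℂ 4 x 0), ?_, ?_⟩
      · have : Phi ℂ 4 x 0 ≠ 0 := by
          intro h0
          apply hx0
          refine eq_zero_of x h0 (by rw [a1, h0]) (by rw [a3, h0, mul_zero])
            (by rw [a2, a3, h0, mul_zero])
        have := Complex.normSq_pos.mpr this
        linarith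
      · change qV.baseChange ℂ x (conj (Fin 4 → ℤ) x) = _
        rw [qVC]
        simp only [Phi_conj]
        rw [a1, a2, a3, map_mul, Complex.conj_I]
        push_cast
        rw [← nsq]
        linear_combination (2 * Phi ℂ 4 x 0 * (starRingEnd ℂ) (Phi ℂ 4 x 0)) * I2
    · norm_num at h
    · norm_num at h
    · exact absurd h hx0
  a := aV
  a_hodge := by
    intro i
    change (1 : ℂ) ⊗ₜ[ℤ] aV i ∈ piece 2
    rw [mem_piece]
    refine Or.inr (Or.inr (Or.inl ⟨rfl, ?_, ?_⟩)) <;> simp only [Phi_tmul] <;>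
      fin_cases i <;> simp [aV]
  pos := by
    intro x hx ha hx0
    exfalso
    apply hx0
    have h0 : qV.baseChange ℂ ((1 : ℂ) ⊗ₜ[ℤ] aV 0) x = 0 := ha 0
    have h1 : qV.baseChange ℂ ((1 : ℂ) ⊗ₜ[ℤ] aV 1) x = 0 := ha 1
    rw [qVC] at h0 h1
    simp only [Phi_tmul, aV_zero, aV_one] at h0 h1
    simp at h0 h1
    have hx' := (mem_piece 2 x).mp hx
    rcases hx' with ⟨h, -⟩ | ⟨h, -⟩ | ⟨-, a1, a2⟩ | h
    · norm_num at h
    · norm_num at h
    · rw [a1] at h0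
      rw [a2] at h1
      have e0 : Phi ℂ 4 x 0 = 0 := by linear_combination (-1 / 2 : ℂ) * h0
      have e2 : Phi ℂ 4 x 2 = 0 := by linear_combination (-1 / 2 : ℂ) * h1
      refine eq_zero_of x e0 (by rw [a1, e0, neg_zero]) e2 (by rw [a2, e2, neg_zero])
    · exact h

/-! ## The Mukai lattice -/

/-- The Gram matrix of `U⁴`, basis `e₁, …, e₄, f₁, …, f₄` -/
def PM : Matrix (Fin 8) (Fin 8) ℤ := Matrix.of fun i j => if j = i + 4 then 1 else 0

/-- The form of `U⁴` -/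
noncomputable def qM : LinearMap.BilinForm ℤ (Fin 8 → ℤ) := Matrix.toBilin' PM

theorem sumPM (A : Type) [CommRing A] (x y : Fin 8 → A) :
    ∑ i, ∑ j, (PM i j : A) * x i * y j = x 0 * y 4 + x 1 * y 5 + x 2 * y 6 + x 3 * y 7 +
      x 4 * y 0 + x 5 * y 1 + x 6 * y 2 + x 7 * y 3 := by
  have h : ∀ i, ∑ j, (PM i j : A) * x i * y j = x i * y (i + 4) := by
    intro i
    rw [Finset.sum_eq_single (i + 4)]
    · simp [PM]
    · intro j _ hj; simp [PM, hj]
    · simp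
  rw [Finset.sum_congr rfl fun i _ => h i]
  simp only [Fin.sum_univ_eight]
  rfl

theorem qM_apply (x y : Fin 8 → ℤ) :
    qM x y = x 0 * y 4 + x 1 * y 5 + x 2 * y 6 + x 3 * y 7 +
      x 4 * y 0 + x 5 * y 1 + x 6 * y 2 + x 7 * y 3 := by
  rw [qM, Matrix.toBilin'_apply, ← sumPM ℤ x y]
  refine Finset.sum_congr rfl fun i _ => Finset.sum_congr rfl fun j _ => ?_
  simp only [Int.cast_id]; ring

theorem qMA (A : Type) [CommRing A] (x y : A ⊗[ℤ] (Fin 8 → ℤ)) :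
    qM.baseChange A x y = Phi A 8 x 0 * Phi A 8 y 4 + Phi A 8 x 1 * Phi A 8 y 5 +
      Phi A 8 x 2 * Phi A 8 y 6 + Phi A 8 x 3 * Phi A 8 y 7 + Phi A 8 x 4 * Phi A 8 y 0 +
      Phi A 8 x 5 * Phi A 8 y 1 + Phi A 8 x 6 * Phi A 8 y 2 + Phi A 8 x 7 * Phi A 8 y 3 := by
  rw [qM, bc_apply, sumPM]

theorem ext8 {A : Type} {z w : Fin 8 → A} (h0 : z 0 = w 0) (h1 : z 1 = w 1) (h2 : z 2 = w 2)
    (h3 : z 3 = w 3) (h4 : z 4 = w 4) (h5 : z 5 = w 5) (h6 : z 6 = w 6) (h7 : z 7 = w 7) :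
    z = w := by
  funext i; fin_cases i <;> assumption

/-- The lattice `U⁴` -/
noncomputable def latM : H91.VF.Lat where
  V := Fin 8 → ℤ
  q := qM
  symm := by intro x y; rw [qM_apply, qM_apply]; ring

theorem evenM : latM.Even := by
  intro x
  let x' : Fin 8 → ℤ := x
  change 2 ∣ qM x' x'
  rw [qM_apply]
  exact ⟨x' 0 * x' 4 + x' 1 * x' 5 + x' 2 * x' 6 + x' 3 * x' 7, by ring⟩

theorem unimodM : latM.Unimod := by
  refine ⟨?_, ?_⟩
  · intro x hx
    have hx' : ∀ y : Fin 8 → ℤ, qM x y = 0 := hx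
    have h0 := hx' (Pi.single 0 1)
    have h1 := hx' (Pi.single 1 1)
    have h2 := hx' (Pi.single 2 1)
    have h3 := hx' (Pi.single 3 1)
    have h4 := hx' (Pi.single 4 1)
    have h5 := hx' (Pi.single 5 1)
    have h6 := hx' (Pi.single 6 1)
    have h7 := hx' (Pi.single 7 1)
    rw [qM_apply] at h0 h1 h2 h3 h4 h5 h6 h7
    simp [Pi.single_apply] at h0 h1 h2 h3 h4 h5 h6 h7
    change x = (0 : Fin 8 → ℤ)
    exact ext8 h4 h5 h6 h7 h0 h1 h2 h3
  · intro l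
    let l' : (Fin 8 → ℤ) →ₗ[ℤ] ℤ := l
    refine ⟨(fun i => l' (Pi.single (i + 4) 1) : Fin 8 → ℤ), ?_⟩
    intro w
    let w' : Fin 8 → ℤ := w
    change qM (fun i => l' (Pi.single (i + 4) 1)) w' = l' w'
    rw [qM_apply]
    have hw : w' = ∑ i, w' i • (Pi.single i 1 : Fin 8 → ℤ) := by
      funext j
      simp [Finset.sum_apply, Pi.single_apply]
    conv_rhs => rw [hw]
    rw [map_sum]
    simp only [map_smul, smul_eq_mul, Fin.sum_univ_eight]
    have e0 : (0 : Fin 8) + 4 = 4 := rfl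
    have e1 : (1 : Fin 8) + 4 = 5 := rfl
    have e2 : (2 : Fin 8) + 4 = 6 := rfl
    have e3 : (3 : Fin 8) + 4 = 7 := rfl
    have e4 : (4 : Fin 8) + 4 = 0 := rfl
    have e5 : (5 : Fin 8) + 4 = 1 := rfl
    have e6 : (6 : Fin 8) + 4 = 2 := rfl
    have e7 : (7 : Fin 8) + 4 = 3 := rfl
    rw [e0, e1, e2, e3, e4, e5, e6, e7]
    ring

/-- `σ = (e₁ + f₁) + i (e₂ + f₂)` -/
noncomputable def sigmaM : ℂ ⊗[ℤ] (Fin 8 → ℤ) :=
  (Phi ℂ 8).symm ![1, Complex.I, 0, 0, 1, Complex.I, 0, 0]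

/-- the frame `e_k + f_k` -/
noncomputable def frameM (k : Fin 4) : ℝ ⊗[ℤ] (Fin 8 → ℤ) :=
  (Phi ℝ 8).symm (![![1, 0, 0, 0, 1, 0, 0, 0], ![0, 1, 0, 0, 0, 1, 0, 0],
    ![0, 0, 1, 0, 0, 0, 1, 0], ![0, 0, 0, 1, 0, 0, 0, 1]] k)

theorem Phi_frame (k : Fin 4) : Phi ℝ 8 (frameM k) = ![![1, 0, 0, 0, 1, 0, 0, 0],
    ![0, 1, 0, 0, 0, 1, 0, 0], ![0, 0, 1, 0, 0, 0, 1, 0], ![0, 0, 0, 1, 0, 0, 0, 1]] k := by
  rw [frameM, LinearEquiv.apply_symm_apply]

/-- The Mukai lattice of the toy twisted K3 surface -/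
noncomputable def mukaiM : Mukai where
  toLat := latM
  even := evenM
  unimod := unimodM
  σ := sigmaM
  frame := frameM
  frame_pos := by
    intro c hc
    have hs : Phi ℝ 8 (∑ i, c i • frameM i) = ![c 0, c 1, c 2, c 3, c 0, c 1, c 2, c 3] := by
      rw [map_sum]
      simp only [map_smul, Phi_frame, Fin.sum_univ_four]
      refine ext8 ?_ ?_ ?_ ?_ ?_ ?_ ?_ ?_ <;> simp
    change 0 < qM.baseChange ℝ (∑ i, c i • frameM i) (∑ i, c i • frameM i)
    rw [qMA, hs]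
    have h : ∃ i, c i ≠ 0 := Function.ne_iff.mp hc
    change 0 < c 0 * c 0 + c 1 * c 1 + c 2 * c 2 + c 3 * c 3 + c 0 * c 0 + c 1 * c 1 +
      c 2 * c 2 + c 3 * c 3
    obtain ⟨i, hi⟩ := h
    have h0 := mul_self_nonneg (c 0)
    have h1 := mul_self_nonneg (c 1)
    have h2 := mul_self_nonneg (c 2)
    have h3 := mul_self_nonneg (c 3)
    have hp : 0 < c i * c i := mul_self_pos.mpr hi
    have hle : c i * c i ≤ ∑ j, c j * c j :=
      Finset.single_le_sum (f := fun j => c j * c j) (fun j _ => mul_self_nonneg _)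
        (Finset.mem_univ i)
    rw [Fin.sum_univ_four] at hle
    linarith
  frame_neg := by
    intro x hx hx0
    have h0 : qM.baseChange ℝ (frameM 0) x = 0 := hx 0
    have h1 : qM.baseChange ℝ (frameM 1) x = 0 := hx 1
    have h2 : qM.baseChange ℝ (frameM 2) x = 0 := hx 2
    have h3 : qM.baseChange ℝ (frameM 3) x = 0 := hx 3
    rw [qMA, Phi_frame] at h0 h1 h2 h3
    simp at h0 h1 h2 h3
    change qM.baseChange ℝ x x < 0
    rw [qMA]
    set z := Phi ℝ 8 x with hz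
    have k0 : z 4 = - z 0 := by linarith
    have k1 : z 5 = - z 1 := by linarith
    have k2 : z 6 = - z 2 := by linarith
    have k3 : z 7 = - z 3 := by linarith
    rw [k0, k1, k2, k3]
    have hne : ¬ (z 0 = 0 ∧ z 1 = 0 ∧ z 2 = 0 ∧ z 3 = 0) := by
      rintro ⟨a0, a1, a2, a3⟩
      apply hx0
      have : z = 0 := ext8 a0 a1 a2 a3 (by rw [k0, a0]; simp) (by rw [k1, a1]; simp)
        (by rw [k2, a2]; simp) (by rw [k3, a3]; simp)
      exact (Phi ℝ 8).map_eq_zero_iff.mp this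
    by_contra hcon
    apply hne
    have g0 := mul_self_nonneg (z 0)
    have g1 := mul_self_nonneg (z 1)
    have g2 := mul_self_nonneg (z 2)
    have g3 := mul_self_nonneg (z 3)
    refine ⟨mul_self_eq_zero.mp ?_, mul_self_eq_zero.mp ?_, mul_self_eq_zero.mp ?_,
      mul_self_eq_zero.mp ?_⟩ <;> nlinarith

/-! ## The transcendental lattice -/

theorem mem_hdg (v : Fin 4 → ℤ) : v ∈ cohV.hdg ↔ v 1 = - v 0 ∧ v 3 = - v 2 := by
  change (1 : ℂ) ⊗ₜ[ℤ] v ∈ piece 2 ↔ _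
  rw [mem_piece]
  simp only [Phi_tmul, mul_one]
  constructor
  · rintro (⟨h, -⟩ | ⟨h, -⟩ | ⟨-, h1, h2⟩ | h)
    · norm_num at h
    · norm_num at h
    · exact ⟨by exact_mod_cast h1, by exact_mod_cast h2⟩
    · have h' : ∀ i, ((v i : ℤ) : ℂ) = 0 := by
        intro i
        have := congrArg (fun x => Phi ℂ 4 x i) h
        simpa [Phi_tmul] using this
      have h'' : ∀ i, v i = 0 := fun i => by exact_mod_cast h' i
      simp [h'']
  · rintro ⟨h1, h2⟩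
    refine Or.inr (Or.inr (Or.inl ⟨trivial, ?_, ?_⟩))
    · rw [h1]; push_cast; rfl
    · rw [h2]; push_cast; rfl

theorem mem_tr (t : Fin 4 → ℤ) : t ∈ cohV.tr ↔ t 1 = t 0 ∧ t 3 = t 2 := by
  constructor
  · intro h
    have h' : ∀ v : Fin 4 → ℤ, v ∈ cohV.hdg → qV v t = 0 := h
    have h0 := h' ![1, -1, 0, 0] ((mem_hdg _).mpr (by simp))
    have h1 := h' ![0, 0, 1, -1] ((mem_hdg _).mpr (by simp))
    rw [qV_apply] at h0 h1
    simp at h0 h1
    constructor <;> linarith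
  · rintro ⟨h1, h2⟩
    have : ∀ v : Fin 4 → ℤ, v ∈ cohV.hdg → qV v t = 0 := by
      intro v hv
      obtain ⟨g1, g2⟩ := (mem_hdg v).mp hv
      rw [qV_apply, h1, h2, g1, g2]; ring
    exact this

/-- `ℤ⁴ → ℤ⁸` -/
def bigJ : (Fin 4 → ℤ) →ₗ[ℤ] (Fin 8 → ℤ) where
  toFun := fun t => ![t 0, t 2, 0, 0, t 0, t 2, 0, 0]
  map_add' := by
    intro s t
    refine ext8 ?_ ?_ ?_ ?_ ?_ ?_ ?_ ?_ <;> simp
  map_smul' := by
    intro c t
    refine ext8 ?_ ?_ ?_ ?_ ?_ ?_ ?_ ?_ <;> simp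

theorem bigJ_apply (t : Fin 4 → ℤ) : bigJ t = ![t 0, t 2, 0, 0, t 0, t 2, 0, 0] := rfl

theorem Phi_bigJ (x : ℂ ⊗[ℤ] (Fin 4 → ℤ)) :
    Phi ℂ 8 (bigJ.baseChange ℂ x) =
      ![Phi ℂ 4 x 0, Phi ℂ 4 x 2, 0, 0, Phi ℂ 4 x 0, Phi ℂ 4 x 2, 0, 0] := by
  induction x using TensorProduct.induction_on with
  | zero =>
    refine ext8 ?_ ?_ ?_ ?_ ?_ ?_ ?_ ?_ <;> simp
  | add x y hx hy =>
    rw [map_add, map_add, hx, hy]
    refine ext8 ?_ ?_ ?_ ?_ ?_ ?_ ?_ ?_ <;> simp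
  | tmul a v =>
    rw [LinearMap.baseChange_tmul]
    refine ext8 ?_ ?_ ?_ ?_ ?_ ?_ ?_ ?_ <;> rw [Phi_tmul] <;> simp [bigJ_apply, Phi_tmul]

/-- coordinates on `T_X` -/
noncomputable def trEquiv : cohV.tr ≃ₗ[ℤ] (Fin 2 → ℤ) where
  toFun := fun t => ![(show Fin 4 → ℤ from t.1) 0, (show Fin 4 → ℤ from t.1) 2]
  invFun := fun w => ⟨(![w 0, w 0, w 1, w 1] : Fin 4 → ℤ), (mem_tr _).mpr ⟨rfl, rfl⟩⟩
  map_add' := by
    intro s t
    funext i; fin_cases i <;> rfl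
  map_smul' := by
    intro c t
    funext i; fin_cases i <;> rfl
  left_inv := by
    intro t
    apply Subtype.ext
    obtain ⟨h1, h2⟩ := (mem_tr t.1).mp t.2
    change (![(show Fin 4 → ℤ from t.1) 0, (show Fin 4 → ℤ from t.1) 0,
      (show Fin 4 → ℤ from t.1) 2, (show Fin 4 → ℤ from t.1) 2] : Fin 4 → ℤ)
        = (show Fin 4 → ℤ from t.1)
    funext i; fin_cases i
    · rfl
    · exact h1.symm
    · rfl
    · exact h2.symm
  right_inv := by
    intro w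
    funext i; fin_cases i <;> rfl

theorem finrank_tr : Module.finrank ℤ cohV.tr = 2 := by
  rw [LinearEquiv.finrank_eq trEquiv]
  simp

theorem mem_N (n : Fin 8 → ℤ) : n ∈ mukaiM.N ↔ n 4 = - n 0 ∧ n 5 = - n 1 := by
  change qM.baseChange ℂ ((1 : ℂ) ⊗ₜ[ℤ] n) sigmaM = 0 ↔ _
  rw [qMA]
  simp only [Phi_tmul, sigmaM, LinearEquiv.apply_symm_apply, mul_one]
  simp only [Matrix.cons_val]
  constructor
  · intro h
    have hre := congrArg Complex.re h
    have him := congrArg Complex.im h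
    simp at hre him
    have a : (n 0 : ℝ) + n 4 = 0 := by linarith
    have b : (n 1 : ℝ) + n 5 = 0 := by linarith
    have a' : n 0 + n 4 = 0 := by exact_mod_cast a
    have b' : n 1 + n 5 = 0 := by exact_mod_cast b
    constructor <;> linarith
  · rintro ⟨h1, h2⟩
    rw [h1, h2]; push_cast; ring

/-- The zero Hodge structure -/
noncomputable def zeroHodge : Hodge4 (Fin 0 → ℤ) where
  H := fun _ => ⊥
  internal := by
    have hs : Subsingleton (ℂ ⊗[ℤ] (Fin 0 → ℤ)) :=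
      (Phi ℂ 0).toEquiv.subsingleton
    apply DirectSum.isInternal_submodule_of_iSupIndep_of_iSup_eq_top
    · intro p
      exact disjoint_bot_left
    · exact Subsingleton.elim _ _
  conj_mem := by
    intro p x hx
    rw [Submodule.mem_bot] at hx ⊢
    rw [hx, map_zero]

theorem stablyIso_self : StablyIso cohV.hodge cohV.hodge := by
  refine ⟨Fin 0 → ℤ, inferInstance, inferInstance, inferInstance, zeroHodge, ⟨0, ?_, ?_, ?_⟩,
    LinearEquiv.refl ℤ _, ?_⟩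
  · intro x y; rfl
  · intro p r x y hx hy _
    have hs : Subsingleton (ℂ ⊗[ℤ] (Fin 0 → ℤ)) := (Phi ℂ 0).toEquiv.subsingleton
    rw [Subsingleton.elim x 0]; simp
  · intro p x _ hx
    have hs : Subsingleton (ℂ ⊗[ℤ] (Fin 0 → ℤ)) := (Phi ℂ 0).toEquiv.subsingleton
    exact absurd (Subsingleton.elim x 0) hx
  · intro p
    have h : ((LinearEquiv.refl ℤ (cohV.V × (Fin 0 → ℤ))).toLinearMap.baseChange ℂ)
        = LinearMap.id := by
      rw [LinearEquiv.refl_toLinearMap, LinearMap.baseChange_id]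
    rw [h, Submodule.map_id]

/-- The toy inhabitant, one Verra fourfold -/
noncomputable def toy (hN : Nikulin1144) : VerraData where
  Verra := Unit
  Iso := fun _ _ => True
  LEq := fun _ _ => True
  coh := fun _ => cohV
  K3 := Unit
  mukai := fun _ => mukaiM
  Cat := Unit
  Equiv := fun _ _ => True
  equiv_symm := fun _ => trivial
  equiv_trans := fun _ _ => trivial
  Ku := fun _ => ()
  Ku4 := fun _ => ()
  ku4_iso := fun _ _ _ => trivial
  Db := fun _ => ()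
  assoc := fun _ => ()
  ku_db := fun _ => trivial
  efimov := fun _ _ _ => stablyIso_self
  tr_mukai := by
    intro _
    refine ⟨bigJ ∘ₗ cohV.tr.subtype, ?_, ?_, ?_⟩
    · intro s t
      obtain ⟨s1, s2⟩ := (mem_tr s.1).mp s.2
      obtain ⟨t1, t2⟩ := (mem_tr t.1).mp t.2
      change qM (bigJ s.1) (bigJ t.1) = - qV s.1 t.1
      rw [qM_apply, qV_apply, bigJ_apply, bigJ_apply, s1, s2, t1, t2]
      simp
      ring
    · intro m
      let m' : Fin 8 → ℤ := m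
      constructor
      · rintro ⟨t, rfl⟩ n hn
        obtain ⟨n1, n2⟩ := (mem_N n).mp hn
        change qM n (bigJ t.1) = 0
        rw [qM_apply, bigJ_apply, n1, n2]
        simp
      · intro h
        have h' : ∀ n : Fin 8 → ℤ, n ∈ mukaiM.N → qM n m' = 0 := h
        have h0 := h' ![1, 0, 0, 0, -1, 0, 0, 0] ((mem_N _).mpr ⟨rfl, rfl⟩)
        have h1 := h' ![0, 1, 0, 0, 0, -1, 0, 0] ((mem_N _).mpr ⟨rfl, rfl⟩)
        have h2 := h' ![0, 0, 1, 0, 0, 0, 0, 0] ((mem_N _).mpr ⟨rfl, rfl⟩)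
        have h3 := h' ![0, 0, 0, 1, 0, 0, 0, 0] ((mem_N _).mpr ⟨rfl, rfl⟩)
        have h6 := h' ![0, 0, 0, 0, 0, 0, 1, 0] ((mem_N _).mpr ⟨rfl, rfl⟩)
        have h7 := h' ![0, 0, 0, 0, 0, 0, 0, 1] ((mem_N _).mpr ⟨rfl, rfl⟩)
        rw [qM_apply] at h0 h1 h2 h3 h6 h7
        simp at h0 h1 h2 h3 h6 h7
        refine ⟨⟨(![m' 0, m' 0, m' 1, m' 1] : Fin 4 → ℤ), (mem_tr _).mpr ⟨rfl, rfl⟩⟩, ?_⟩
        change bigJ ![m' 0, m' 0, m' 1, m' 1] = m'
        rw [bigJ_apply]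
        exact ext8 rfl rfl h6.symm h7.symm (by simp; linarith) (by simp; linarith) h2.symm
          h3.symm
    · intro x hx
      let y : ℂ ⊗[ℤ] (Fin 4 → ℤ) := cohV.incl x
      have hy : y ∈ piece 3 := hx
      refine ⟨Phi ℂ 4 y 0, ?_⟩
      have hb : (bigJ ∘ₗ cohV.tr.subtype).baseChange ℂ x = bigJ.baseChange ℂ y := by
        rw [LinearMap.baseChange_comp]
        rfl
      have key : bigJ.baseChange ℂ y = Phi ℂ 4 y 0 • sigmaM := by
        apply (Phi ℂ 8).injective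
        rw [Phi_bigJ, map_smul, sigmaM, LinearEquiv.apply_symm_apply]
        rw [mem_piece] at hy
        have h2 : Phi ℂ 4 y 2 = Complex.I * Phi ℂ 4 y 0 := by
          rcases hy with ⟨-, -, -, h⟩ | ⟨h, -⟩ | ⟨h, -⟩ | h
          · exact h
          · norm_num at h
          · norm_num at h
          · rw [h]; simp
        rw [h2]
        refine ext8 ?_ ?_ ?_ ?_ ?_ ?_ ?_ ?_ <;> simp [mul_comm]
      exact hb.trans key
  alg_mukai := by
    intro _
    refine ⟨(![0, 0, 1, 0, 0, 0, 0, 0] : Fin 8 → ℤ), (mem_N _).mpr ⟨rfl, rfl⟩,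
      (![0, 0, 0, 0, 0, 0, 2, 0] : Fin 8 → ℤ), (mem_N _).mpr ⟨rfl, rfl⟩,
      (![0, 0, 0, 1, 0, 0, 0, 1] : Fin 8 → ℤ), (mem_N _).mpr ⟨rfl, rfl⟩, ?_⟩
    change qM _ _ = 0 ∧ qM _ _ = 0 ∧ qM _ _ = 2 ∧ qM _ _ = 2 ∧ qM _ _ = 0 ∧ qM _ _ = 0
    simp only [qM_apply]
    refine ⟨?_, ?_, ?_, ?_, ?_, ?_⟩ <;> simp
  mukai_iso := fun _ _ => ⟨LinearEquiv.refl ℤ _, fun _ _ => rfl⟩
  huybrechts_stellari := fun _ _ _ _ _ => trivial
  nikulin := hN
  torelli := fun _ _ _ _ _ => trivial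
  zarhin := by
    intro _ _ h2
    exact absurd finrank_tr h2

/-- The fields of `VerraData` are consistent with the existence of a Verra fourfold. -/
theorem nonempty_toy (hN : Nikulin1144) : ∃ D : VerraData, Nonempty D.Verra :=
  ⟨toy hN, ⟨()⟩⟩

end H52.VF
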